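import Pool.Agent.Helper93.KS.St

/-!
# Project KS (MP_77e955_nt), module WT: the trivial rules for the weights
-/

set_option autoImplicit false

noncomputable section

namespace Pool.Agent.Helper60.KS

open Finset Filter Topology Pool.Agent.Helper93.KS
open Pool.Agent.Helper9.TW (gm)

private theorem gm_le (j : ℕ) (hj : 1 ≤ j) : gm j ≤ 1 / (j : ℝ) := by
  have hj' : (0 : ℝ) < j := by exact_mod_cast hj
  unfold gm
  have h := Real.log_le_sub_one_of_pos (show (0 : ℝ) < ((j : ℝ) + 1) / j by positivity)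
  have e : ((j : ℝ) + 1) / j - 1 = 1 / j := by
    field_simp
    ring
  rwa [e] at h

private theorem gm_nonneg (j : ℕ) (hj : 1 ≤ j) : 0 ≤ gm j := by
  have hj' : (0 : ℝ) < j := by exact_mod_cast hj
  unfold gm
  apply Real.log_nonneg
  rw [le_div_iff₀ hj']
  linarith

private theorem kgm_le (κ j : ℕ) (hκ : κ ≤ 2) (hj : 3 ≤ j) : (κ : ℝ) * gm j ≤ 2 / 3 := by
  have h1 := gm_le j (by omega)
  have h0 := gm_nonneg j (by omega)
  have hk : (κ : ℝ) ≤ 2 := by exact_mod_cast hκ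
  have hj' : (3 : ℝ) ≤ j := by exact_mod_cast hj
  have h2 : 1 / (j : ℝ) ≤ 1 / 3 := one_div_le_one_div_of_le (by norm_num) hj'
  have h3 : (κ : ℝ) * gm j ≤ 2 * gm j := mul_le_mul_of_nonneg_right hk h0
  linarith

private theorem kgm_nonneg (κ j : ℕ) (hj : 3 ≤ j) : 0 ≤ (κ : ℝ) * gm j :=
  mul_nonneg (Nat.cast_nonneg _) (gm_nonneg j (by omega))

private theorem AD_mono {κ a j0 j j' : ℕ} {ω η η' : ℝ} {g : ℕ → ℝ} (h : AD κ a ω η j0 j' g) (hη : η ≤ η')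
    (hj : j ≤ j') : AD κ a ω η' j0 j g := by
  refine ⟨h.1, fun i hi => ?_⟩
  rw [mem_Ico] at hi
  have := h.2 i (mem_Ico.2 ⟨hi.1, by omega⟩)
  linarith

private theorem Gb_nonneg {a : ℕ} {ω : ℝ} {g : ℕ → ℝ} (hg : ∀ p, 0 ≤ g p) (i : ℕ) : 0 ≤ Gb a ω g i :=
  sum_nonneg fun p _ => hg p

private theorem fac_pos {κ a j0 j : ℕ} {ω η : ℝ} {g : ℕ → ℝ} (hκ : κ ≤ 2) (hj0 : 3 ≤ j0) (hη : η ≤ 1 / 4)
    (h : AD κ a ω η j0 j g) (i : ℕ) (hi : i ∈ Ico j0 j) : 0 < 1 - Gb a ω g i := by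
  have h1 := h.2 i hi
  rw [mem_Ico] at hi
  have h2 := kgm_le κ i hκ (by omega)
  linarith

private theorem Vq_nonneg {κ a j0 j : ℕ} {ω η : ℝ} {g : ℕ → ℝ} (hκ : κ ≤ 2) (hj0 : 3 ≤ j0) (hη : η ≤ 1 / 4)
    (h : AD κ a ω η j0 j g) : 0 ≤ Vq a ω g j0 j :=
  prod_nonneg fun i hi => (fac_pos hκ hj0 hη h i hi).le

private theorem Pq_mono {a j0 j : ℕ} {ω : ℝ} : Pq a ω j0 j ⊆ Pq a ω j0 (j + 1) := by
  unfold Pq
  apply biUnion_subset_biUnion_of_subset_left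
  intro i hi
  rw [mem_Ico] at hi ⊢
  omega

private theorem Pq_self {a j0 : ℕ} {ω : ℝ} : Pq a ω j0 j0 = ∅ := by
  unfold Pq
  rw [Ico_self, biUnion_empty]

private theorem idq_self (a j0 m : ℕ) (ω : ℝ) : idq a ω j0 j0 m = 1 := by
  unfold idq
  rw [Pq_self]
  simp

private theorem idq_nonneg (a j0 j m : ℕ) (ω : ℝ) : 0 ≤ idq a ω j0 j m := by
  unfold idq
  split_ifs <;> norm_num

private theorem idq_mono (a j0 j m : ℕ) (ω : ℝ) : idq a ω j0 (j + 1) m ≤ idq a ω j0 j m := by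
  unfold idq
  by_cases h : ∃ p ∈ Pq a ω j0 j, p ∣ m
  · have h' : ∃ p ∈ Pq a ω j0 (j + 1), p ∣ m := by
      obtain ⟨p, hp, hd⟩ := h
      exact ⟨p, Pq_mono hp, hd⟩
    rw [if_pos h, if_pos h']
  · rw [if_neg h]
    split_ifs <;> norm_num

private def dl (q : ℕ) : ℝ := if q = 1 then 1 else 0

private theorem dl_SW (a j0 j N : ℕ) (ω : ℝ) (hω : 0 < ω) (ha : 1 ≤ a) : SW a ω j0 j ((N : ℝ) * ω) 1 dl := by
  intro q
  unfold dl
  by_cases hq : q = 1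
  · subst hq
    refine ⟨by simp, fun _ => ⟨squarefree_one, fun p hp hd => ?_, ?_⟩⟩
    · exact absurd (Nat.dvd_one.1 hd) hp.one_lt.ne'
    · rw [Nat.cast_one]
      exact Real.one_le_rpow (by exact_mod_cast ha) (mul_nonneg (Nat.cast_nonneg _) hω.le)
  · rw [if_neg hq]
    refine ⟨by simp, fun h => absurd rfl h⟩

private theorem dl_sum (m : ℕ) (hm : 1 ≤ m) : ∑ q ∈ m.divisors, dl q = 1 := by
  unfold dl
  rw [sum_ite_eq']
  rw [if_pos]
  exact Nat.one_mem_divisors.2 (by omega)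

private theorem dl_mg (a : ℕ) (g : ℕ → ℝ) (ha : 1 ≤ a) : mg a g dl = 1 := by
  unfold mg dl
  rw [sum_eq_single 1]
  · simp
  · intro b _ hb
    rw [if_neg hb, zero_mul]
  · intro h
    exfalso
    apply h
    rw [mem_range]
    have : 1 ≤ a ^ 2 := Nat.one_le_pow _ _ ha
    omega

private theorem Vq_self (a j0 : ℕ) (ω : ℝ) (g : ℕ → ℝ) : Vq a ω g j0 j0 = 1 := by
  unfold Vq
  rw [Ico_self, prod_empty]

private theorem um (κ : ℕ) (ω : ℝ) (j0 N j : ℕ) (u u' : ℝ) (hκ : κ ≤ 2) (hj0 : 3 ≤ j0)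
    (h : UQ κ ω j0 N j u) (hu : u ≤ u') : UQ κ ω j0 N j u' := by
  obtain ⟨B, Lam, hB, h1, h2, h3⟩ := h
  refine ⟨B, Lam, hB, h1, h2, fun ε hε => ?_⟩
  obtain ⟨η, hη, h4⟩ := h3 ε hε
  refine ⟨min η (1 / 4), lt_min hη (by norm_num), ?_⟩
  filter_upwards [h4] with a ha g hg
  have h5 := ha g (AD_mono hg (min_le_left _ _) le_rfl)
  have h6 := Vq_nonneg hκ hj0 (min_le_right _ _) hg
  have h7 : (1 + u + ε) * Vq a ω g j0 j ≤ (1 + u' + ε) * Vq a ω g j0 j :=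
    mul_le_mul_of_nonneg_right (by linarith) h6
  linarith

private theorem lm (κ : ℕ) (ω : ℝ) (j0 N j : ℕ) (u u' : ℝ) (hκ : κ ≤ 2) (hj0 : 3 ≤ j0)
    (h : LQ κ ω j0 N j u) (hu : u ≤ u') : LQ κ ω j0 N j u' := by
  obtain ⟨B, Lam, hB, h1, h2, h3⟩ := h
  refine ⟨B, Lam, hB, h1, h2, fun ε hε => ?_⟩
  obtain ⟨η, hη, h4⟩ := h3 ε hε
  refine ⟨min η (1 / 4), lt_min hη (by norm_num), ?_⟩
  filter_upwards [h4] with a ha g hg
  have h5 := ha g (AD_mono hg (min_le_left _ _) le_rfl)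
  have h6 := Vq_nonneg hκ hj0 (min_le_right _ _) hg
  have h7 : (1 - u' - ε) * Vq a ω g j0 j ≤ (1 - u - ε) * Vq a ω g j0 j :=
    mul_le_mul_of_nonneg_right (by linarith) h6
  linarith

private theorem u0 (κ : ℕ) (ω : ℝ) (j0 N : ℕ) (hω : 0 < ω) : UQ κ ω j0 N j0 0 := by
  refine ⟨1, fun _ => dl, zero_le_one, ?_, ?_, fun ε hε => ⟨1, one_pos, ?_⟩⟩
  · filter_upwards [eventually_ge_atTop 1] with a ha
    exact dl_SW a j0 j0 N ω hω ha
  · filter_upwards with a m hm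
    rw [idq_self, dl_sum m hm]
  · filter_upwards [eventually_ge_atTop 1] with a ha g _
    rw [dl_mg a g ha, Vq_self]
    linarith

private theorem l0 (κ : ℕ) (ω : ℝ) (j0 N : ℕ) (hω : 0 < ω) : LQ κ ω j0 N j0 0 := by
  refine ⟨1, fun _ => dl, zero_le_one, ?_, ?_, fun ε hε => ⟨1, one_pos, ?_⟩⟩
  · filter_upwards [eventually_ge_atTop 1] with a ha
    exact dl_SW a j0 j0 N ω hω ha
  · filter_upwards with a m hm
    rw [idq_self, dl_sum m hm]
  · filter_upwards [eventually_ge_atTop 1] with a ha g _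
    rw [dl_mg a g ha, Vq_self]
    linarith

private theorem lz (κ : ℕ) (ω : ℝ) (j0 N j : ℕ) (hκ : κ ≤ 2) (hj0 : 3 ≤ j0) : LQ κ ω j0 N j 1 := by
  refine ⟨0, fun _ _ => 0, le_rfl, ?_, ?_, fun ε hε => ⟨1 / 4, by norm_num, ?_⟩⟩
  · filter_upwards with a q
    exact ⟨by simp, fun h => absurd rfl h⟩
  · filter_upwards with a m hm
    rw [sum_const_zero]
    exact idq_nonneg a j0 j m ω
  · filter_upwards with a g hg
    have h6 := Vq_nonneg hκ hj0 le_rfl hg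
    have e : mg a g (fun _ => 0) = 0 := by
      unfold mg
      simp
    rw [e]
    have := mul_nonneg hε.le h6
    nlinarith

private theorem uk (κ : ℕ) (ω : ℝ) (j0 N j : ℕ) (u : ℝ) (hκ : κ ≤ 2) (hj0 : 3 ≤ j0) (hj : j0 ≤ j) (hu : 0 ≤ u)
    (h : UQ κ ω j0 N j u) : UQ κ ω j0 N (j + 1) ((u + κ * gm j) / (1 - κ * gm j)) := by
  obtain ⟨B, Lam, hB, h1, h2, h3⟩ := h
  refine ⟨B, Lam, hB, ?_, ?_, fun ε hε => ?_⟩
  · filter_upwards [h1] with a ha q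
    refine ⟨(ha q).1, fun hq => ⟨((ha q).2 hq).1, fun p hp hd => ?_, ((ha q).2 hq).2.2⟩⟩
    exact Pq_mono (((ha q).2 hq).2.1 p hp hd)
  · filter_upwards [h2] with a ha m hm
    exact (idq_mono a j0 j m ω).trans (ha m hm)
  · have hx1 := kgm_le κ j hκ (by omega)
    have hx0 := kgm_nonneg κ j (by omega)
    have hR0 : 0 < 1 - (κ : ℝ) * gm j := by linarith
    have hR1 : 0 ≤ (u + (κ : ℝ) * gm j) / (1 - (κ : ℝ) * gm j) := div_nonneg (by linarith) hR0.le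
    have hRe : (1 - (κ : ℝ) * gm j) * (1 + (u + (κ : ℝ) * gm j) / (1 - (κ : ℝ) * gm j)) = 1 + u := by
      field_simp
      ring
    obtain ⟨η₁, hη₁, h4⟩ := h3 (ε / 6) (by positivity)
    generalize hR : (u + (κ : ℝ) * gm j) / (1 - (κ : ℝ) * gm j) = R at hR1 hRe ⊢
    have hRp : 0 < 1 + R + ε := by linarith
    refine ⟨min η₁ (min (1 / 4) (ε / (6 * (1 + R + ε)))), lt_min hη₁ (lt_min (by norm_num) (by positivity)), ?_⟩
    filter_upwards [h4] with a ha g hg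
    have hη1 := min_le_left η₁ (min (1 / 4) (ε / (6 * (1 + R + ε))))
    have hη2 := (min_le_right η₁ (min (1 / 4) (ε / (6 * (1 + R + ε))))).trans (min_le_left _ _)
    have hη3 := (min_le_right η₁ (min (1 / 4) (ε / (6 * (1 + R + ε))))).trans (min_le_right _ _)
    generalize min η₁ (min (1 / 4) (ε / (6 * (1 + R + ε)))) = η at hη1 hη2 hη3 hg
    have h5 := ha g (AD_mono hg hη1 (Nat.le_succ j))
    have h6 : 0 ≤ Vq a ω g j0 j := Vq_nonneg hκ hj0 hη2 (AD_mono hg le_rfl (Nat.le_succ j))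
    have h7 := hg.2 j (mem_Ico.2 ⟨hj, Nat.lt_succ_self j⟩)
    have h8 : Vq a ω g j0 (j + 1) = Vq a ω g j0 j * (1 - Gb a ω g j) := by
      unfold Vq
      exact prod_Ico_succ_top hj _
    have h9 : η * (1 + R + ε) ≤ ε / 6 := by
      calc η * (1 + R + ε) ≤ ε / (6 * (1 + R + ε)) * (1 + R + ε) := mul_le_mul_of_nonneg_right hη3 hRp.le
        _ = ε / 6 := by
          field_simp
    have h10 : 1 + u + ε / 6 ≤ (1 + R + ε) * (1 - Gb a ω g j) := by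
      have h11 : (1 + R + ε) * (1 - (κ : ℝ) * gm j - η) ≤ (1 + R + ε) * (1 - Gb a ω g j) :=
        mul_le_mul_of_nonneg_left (by linarith) hRp.le
      have h12 : (1 + R + ε) * (1 - (κ : ℝ) * gm j - η) =
          (1 - (κ : ℝ) * gm j) * (1 + R) + ε * (1 - (κ : ℝ) * gm j) - η * (1 + R + ε) := by ring
      have h13 : ε * (1 / 3) ≤ ε * (1 - (κ : ℝ) * gm j) := mul_le_mul_of_nonneg_left (by linarith) hε.le
      linarith
    calc mg a g (Lam a) ≤ (1 + u + ε / 6) * Vq a ω g j0 j := h5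
      _ ≤ ((1 + R + ε) * (1 - Gb a ω g j)) * Vq a ω g j0 j := mul_le_mul_of_nonneg_right h10 h6
      _ = (1 + R + ε) * Vq a ω g j0 (j + 1) := by rw [h8]; ring

/-- WT -/
theorem hWT : StWT := by
  intro κ ω j0 N j u u' hκ hω hj0 hj
  exact ⟨um κ ω j0 N j u u' hκ hj0, lm κ ω j0 N j u u' hκ hj0, u0 κ ω j0 N hω, l0 κ ω j0 N hω,
    lz κ ω j0 N j hκ hj0, uk κ ω j0 N j u hκ hj0 hj⟩

end Pool.Agent.Helper60.KS
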